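import Pool.Agent.W682.TW.Stm

/-!
Project TW: `g1` is below the wells.
-/

set_option autoImplicit false

open scoped BigOperators

namespace Pool.Agent.W45.TW.LE1

open Pool.Agent.W682.TW

lemma sq_nonneg' {n : ℕ} (v : Fin n → ℝ) : 0 ≤ W682.TW.sq v := Finset.sum_nonneg fun i _ => sq_nonneg (v i)

lemma sgn_sq {σ : ℕ → ℝ} (hσ : Sgn σ) (s : ℕ) : σ s ^ 2 = 1 := by
  rcases hσ s with h | h <;> rw [h] <;> norm_num

lemma Y_sq {n : ℕ} {σ : ℕ → ℝ} (hσ : Sgn σ) (b : Fin n → ℝ) (i : Fin n) :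
    Yf n σ b i ^ 2 ≤ n * W682.TW.sq b := by
  unfold Yf
  refine (Finset.sum_mul_sq_le_sq_mul_sq Finset.univ (fun j : Fin n => σ (i.val + j.val)) b).trans ?_
  have h1 : ∑ j : Fin n, σ (i.val + j.val) ^ 2 = n := by
    simp [sgn_sq hσ]
  rw [h1]
  exact le_rfl

lemma pf_eq {n : ℕ} (σ : ℕ → ℝ) (a b : Fin n → ℝ) : pf n σ a b = ∑ i, a i * Yf n σ b i := by
  unfold pf Yf
  refine Finset.sum_congr rfl fun i _ => ?_
  rw [Finset.mul_sum]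
  refine Finset.sum_congr rfl fun j _ => ?_
  ring

lemma sumY {n : ℕ} {σ : ℕ → ℝ} (hσ : Sgn σ) (b : Fin n → ℝ) :
    ∑ i, Yf n σ b i ^ 2 ≤ (n : ℝ) ^ 2 * W682.TW.sq b := by
  refine (Finset.sum_le_sum fun i _ => Y_sq hσ b i).trans ?_
  rw [Finset.sum_const, Finset.card_univ, Fintype.card_fin, nsmul_eq_mul]
  exact le_of_eq (by ring)

lemma pf_sq {n : ℕ} {σ : ℕ → ℝ} (hσ : Sgn σ) (a b : Fin n → ℝ) :
    pf n σ a b ^ 2 ≤ (n : ℝ) ^ 2 * W682.TW.sq a * W682.TW.sq b := by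
  rw [pf_eq]
  refine (Finset.sum_mul_sq_le_sq_mul_sq Finset.univ a (Yf n σ b)).trans ?_
  calc (∑ i, a i ^ 2) * ∑ i, Yf n σ b i ^ 2 ≤ (∑ i, a i ^ 2) * ((n : ℝ) ^ 2 * W682.TW.sq b) :=
        mul_le_mul_of_nonneg_left (sumY hσ b) (sq_nonneg' a)
    _ = (n : ℝ) ^ 2 * W682.TW.sq a * W682.TW.sq b := by
        unfold W682.TW.sq
        ring

lemma psi_nonneg {n : ℕ} (σ : ℕ → ℝ) (b : Fin n → ℝ) : 0 ≤ psi n σ b := by
  unfold psi
  have h1 : 0 ≤ ∑ i : Fin n, Yf n σ b i ^ 4 := Finset.sum_nonneg fun i _ => by positivity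
  have h2 : 1 ≤ Real.sqrt (∑ i : Fin n, Yf n σ b i ^ 4 + 1) := by
    rw [Real.le_sqrt' one_pos]
    linarith
  linarith

lemma psi_le {n : ℕ} {σ : ℕ → ℝ} (hσ : Sgn σ) (b : Fin n → ℝ) :
    psi n σ b ≤ (n : ℝ) ^ 2 * W682.TW.sq b / 20 := by
  unfold psi
  have h0 := sumY hσ b
  obtain ⟨S, hS⟩ : ∃ S : ℝ, S = ∑ i : Fin n, Yf n σ b i ^ 2 := ⟨_, rfl⟩
  have hS0 : 0 ≤ S := by rw [hS]; exact Finset.sum_nonneg fun i _ => by positivity
  have h1 : ∑ i : Fin n, Yf n σ b i ^ 4 ≤ S ^ 2 := by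
    have h2 : ∀ i : Fin n, Yf n σ b i ^ 4 ≤ Yf n σ b i ^ 2 * S := by
      intro i
      have h3 : Yf n σ b i ^ 2 ≤ S := by
        rw [hS]
        exact Finset.single_le_sum (f := fun i => Yf n σ b i ^ 2) (fun i _ => by positivity)
          (Finset.mem_univ i)
      calc Yf n σ b i ^ 4 = Yf n σ b i ^ 2 * Yf n σ b i ^ 2 := by ring
        _ ≤ _ := mul_le_mul_of_nonneg_left h3 (by positivity)
    refine (Finset.sum_le_sum fun i _ => h2 i).trans ?_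
    rw [← Finset.sum_mul, ← hS]
    exact le_of_eq (by ring)
  have h2 : Real.sqrt (∑ i : Fin n, Yf n σ b i ^ 4 + 1) ≤ S + 1 := by
    rw [Real.sqrt_le_left (by linarith)]
    nlinarith
  rw [← hS] at h0
  linarith

/-- the elementary inequality -/
lemma key (N R L y P s A B ε u : ℝ) (hN : 0 ≤ N) (hR : 0 ≤ R) (hA0 : 0 ≤ A) (hB0 : 0 ≤ B)
    (hA : A ≤ R) (hB : B ≤ R) (hs0 : 0 ≤ s) (hs : s ≤ N * B / 20) (hP : P ^ 2 ≤ N * A * B)
    (hL : 2 + 16 * (N * R) + N ^ 2 * R + 8 * (N * R / 20 + R / 12) ≤ L)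
    (hu : |u| ≤ y ^ 2 + |y|) (hε : 0 ≤ ε * (1 + u)) :
    0 ≤ L * y ^ 2 - y * P + B / 2 + u * (s + A / 12) + ε * (1 + u) + A ^ 2 / 144 := by
  have hNR : 0 ≤ N * R := mul_nonneg hN hR
  have hN2R : 0 ≤ N ^ 2 * R := mul_nonneg (sq_nonneg N) hR
  have hL2 : 2 ≤ L := by linarith
  have hLp : 0 < L := by linarith
  have hy0 : 0 ≤ |y| := abs_nonneg y
  have hyy : |y| ^ 2 = y ^ 2 := sq_abs y
  -- (1)
  have h1 : y * P ≤ L * y ^ 2 / 8 + B / 8 := by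
    have a1 : P ^ 2 ≤ N * R * B := hP.trans (by
      have : N * A ≤ N * R := mul_le_mul_of_nonneg_left hA hN
      exact mul_le_mul_of_nonneg_right this hB0)
    have a2 : 16 * (N * R) * B ≤ L * B := mul_le_mul_of_nonneg_right (by linarith) hB0
    have a3 : L * (y * P) ≤ L * (L * y ^ 2 / 8 + B / 8) := by nlinarith [sq_nonneg (L * y - 4 * P)]
    exact le_of_mul_le_mul_left a3 hLp
  -- (2)
  have h2 : |y| * s ≤ L * y ^ 2 / 8 + B / 8 := by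
    have a1 : s ^ 2 ≤ N ^ 2 * R * B / 400 := by
      have b1 : s ^ 2 ≤ (N * B / 20) ^ 2 := pow_le_pow_left₀ hs0 hs 2
      have b2 : N ^ 2 * B * B ≤ N ^ 2 * R * B :=
        mul_le_mul_of_nonneg_right (mul_le_mul_of_nonneg_left hB (sq_nonneg N)) hB0
      linarith
    have a2 : N ^ 2 * R * B ≤ L * B := mul_le_mul_of_nonneg_right (by linarith) hB0
    have a4 : 0 ≤ L * B := mul_nonneg hLp.le hB0
    have a3 : L * (|y| * s) ≤ L * (L * y ^ 2 / 8 + B / 8) := by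
      rw [← hyy]
      nlinarith [sq_nonneg (L * |y| - 4 * s)]
    exact le_of_mul_le_mul_left a3 hLp
  -- (3)
  have h3 : |y| * (A / 12) ≤ L * y ^ 2 / 8 + A ^ 2 / 144 := by
    have a2 : 2 * (A / 12) ^ 2 ≤ L * (A / 12) ^ 2 := mul_le_mul_of_nonneg_right hL2 (sq_nonneg _)
    have a3 : L * (|y| * (A / 12)) ≤ L * (L * y ^ 2 / 8 + A ^ 2 / 144) := by
      rw [← hyy]
      nlinarith [sq_nonneg (L * |y| - 4 * (A / 12))]
    exact le_of_mul_le_mul_left a3 hLp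
  -- (4)
  have h4 : y ^ 2 * (s + A / 12) ≤ L * y ^ 2 / 8 := by
    have a1 : s + A / 12 ≤ L / 8 := by
      have : N * B ≤ N * R := mul_le_mul_of_nonneg_left hB hN
      linarith
    have := mul_le_mul_of_nonneg_left a1 (sq_nonneg y)
    linarith
  -- (5)
  have h5 : -((y ^ 2 + |y|) * (s + A / 12)) ≤ u * (s + A / 12) := by
    have a1 : 0 ≤ s + A / 12 := by positivity
    have a2 : -(y ^ 2 + |y|) ≤ u := by linarith [neg_abs_le u]
    have := mul_le_mul_of_nonneg_right a2 a1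
    linarith
  have h6 : 0 ≤ L * y ^ 2 := mul_nonneg hLp.le (sq_nonneg y)
  nlinarith

theorem main : S_LE1 := by
  intro n σ ε R hn hσ hε
  refine ⟨2 + 16 * ((n : ℝ) ^ 2 * R) + ((n : ℝ) ^ 2) ^ 2 * R +
    8 * ((n : ℝ) ^ 2 * R / 20 + R / 12), ?_⟩
  intro Λ χ hΛ hχ x hx1 hx2 hA hB
  have hn2 : (2 : ℝ) ≤ n := by exact_mod_cast hn
  have hinv : 1 / (n : ℝ) ^ 2 ≤ 1 / 4 := by
    apply one_div_le_one_div_of_le (by norm_num)
    nlinarith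
  have hA0 := sq_nonneg' x.2.1
  have hB0 := sq_nonneg' x.2.2
  have hθ : 0 ≤ 1 + (x.1 - x.1 ^ 2) := by nlinarith
  have hu : |x.1 - x.1 ^ 2| ≤ (x.1 - χ) ^ 2 + |x.1 - χ| := by
    rcases hχ with rfl | rfl
    · have h1 : x.1 - x.1 ^ 2 = (x.1 - 0) - (x.1 - 0) ^ 2 := by ring
      rw [h1]
      refine (abs_sub _ _).trans ?_
      rw [abs_pow, sq_abs]
      linarith
    · have h1 : x.1 - x.1 ^ 2 = -((x.1 - 1) + (x.1 - 1) ^ 2) := by ring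
      rw [h1, abs_neg]
      refine (abs_add_le _ _).trans ?_
      rw [abs_pow, sq_abs]
      linarith
  have hk := key ((n : ℝ) ^ 2) R Λ (x.1 - χ) (pf n σ x.2.1 x.2.2) (psi n σ x.2.2) (W682.TW.sq x.2.1)
    (W682.TW.sq x.2.2) ε (x.1 - x.1 ^ 2) (by positivity) (hA0.trans hA) hA0 hB0 hA hB
    (psi_nonneg σ x.2.2) (psi_le hσ x.2.2) (pf_sq hσ x.2.1 x.2.2) hΛ hu (mul_nonneg hε.le hθ)
  unfold g1 wx
  linarith

end Pool.Agent.W45.TW.LE1
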